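import Pool.Agent.Y192.KC.ZDefs
import Pool.Agent.Y768.KC.Rad0

/-!
# KZ12: the covers of `Z` are of log general type
-/

set_option autoImplicit false

namespace Pool.Agent.Y153.KZ

open MvPolynomial FF Pool.Agent.W602.GT Pool.Agent.Y192.OG Pool.Agent.Y192.KC

/-! ### Places -/

section place

variable {L : Type} [Field L] [Algebra ℂ L] (P : Place ℂ L)

theorem reg_pow {f : L} (hf : P.Reg f) (n : ℕ) : P.Reg (f ^ n) := by
  induction n with
  | zero => rw [pow_zero]; exact P.reg_one
  | succ n ih => rw [pow_succ]; exact P.reg_mul ih hf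

theorem reg_mvaeval {ι : Type} {b : ι → L} (hb : ∀ i, P.Reg (b i)) (Q : MvPolynomial ι ℂ) :
    P.Reg (aeval b Q) := by
  induction Q using MvPolynomial.induction_on with
  | C a => rw [algHom_C]; exact P.reg_const a
  | add p q hp hq => rw [map_add]; exact P.reg_add hp hq
  | mul_X p i hp => rw [map_mul, aeval_X]; exact P.reg_mul hp (hb i)

/-- a place of an algebraic extension is not trivial on the base field -/
theorem not_trivial_of_alg {K : Type} [Field K] [Algebra K L] [Algebra.IsAlgebraic K L]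
    (h : ∀ z : K, P.ord (algebraMap K L z) = 0) : False := by
  obtain ⟨f, hf0, hf1⟩ := P.surj
  have hK : ∀ z : K, P.Reg (algebraMap K L z) := fun z => Or.inr (h z).ge
  have hint : IsIntegral K f := (Algebra.IsAlgebraic.isAlgebraic f).isIntegral
  have hc := minpoly.coeff_zero_ne_zero hint hf0
  have hreg : ∀ q : Polynomial K, P.Reg (Polynomial.aeval f q) := by
    intro q
    induction q using Polynomial.induction_on' with
    | add p q hp hq => rw [map_add]; exact P.reg_add hp hq
    | monomial n a =>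
      rw [Polynomial.aeval_monomial]
      exact P.reg_mul (hK a) (reg_pow P (Or.inr (by rw [hf1]; norm_num)) n)
  have h1 : Polynomial.aeval f (minpoly K f).divX * f =
      -algebraMap K L ((minpoly K f).coeff 0) := by
    have h2 := minpoly.aeval K f
    rw [← Polynomial.divX_mul_X_add (minpoly K f), map_add, map_mul, Polynomial.aeval_X,
      Polynomial.aeval_C] at h2
    exact eq_neg_of_add_eq_zero_left h2
  have h3 : Polynomial.aeval f (minpoly K f).divX ≠ 0 := by
    intro h4
    rw [h4, zero_mul] at h1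
    have h5 : algebraMap K L ((minpoly K f).coeff 0) = 0 := neg_eq_zero.1 h1.symm
    exact hc ((map_eq_zero _).1 h5)
  have h6 := congrArg P.ord h1
  rw [P.ord_mul h3 hf0, P.ord_neg, h, hf1] at h6
  have h7 := (P.reg_iff h3).1 (hreg _)
  omega

end place

/-! ### Laurent polynomials -/

theorem aeval_scale {K : Type} [Field K] [Algebra ℂ K] {n q : ℕ}
    {Q : MvPolynomial (Fin (n + 1)) ℂ} (hQ : Q.IsHomogeneous q) (t : K) (y : Fin (n + 1) → K) :
    aeval (fun i => t * y i) Q = t ^ q * aeval y Q := by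
  rw [aeval_def, eval₂_eq', aeval_def, eval₂_eq', Finset.mul_sum]
  refine Finset.sum_congr rfl fun c hc => ?_
  have h1 : ∑ i, c i = q := by
    have h2 := hQ (mem_support_iff.mp hc)
    rw [Finsupp.weight_apply, Finsupp.sum_fintype _ _ (by simp)] at h2
    simpa using h2
  have h3 : ∏ i, (t * y i) ^ c i = t ^ q * ∏ i, y i ^ c i := by
    rw [← h1, ← Finset.prod_pow_eq_pow_sum, ← Finset.prod_mul_distrib]
    exact Finset.prod_congr rfl fun i _ => mul_pow _ _ _
  rw [h3]
  ring

theorem xm_single {n : ℕ} {K : Type} [Field K] (x : Fin n → Kˣ) (i : Fin n) :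
    xm x (Pi.single i 1) = x i := by
  unfold xm
  rw [Finset.prod_eq_single i]
  · simp
  · intro j _ hj
    rw [Pi.single_eq_of_ne hj, zpow_zero]
  · intro h
    exact absurd (Finset.mem_univ i) h

/-- the dehomogenized coordinates -/
def yy {n : ℕ} {K : Type} [Field K] (x : Fin n → Kˣ) : Fin (n + 1) → K :=
  Fin.cons (α := fun _ => K) 1 fun i => (x i : K)

theorem yy_ne {n : ℕ} {K : Type} [Field K] (x : Fin n → Kˣ) (i : Fin (n + 1)) : yy x i ≠ 0 := by
  refine Fin.cases ?_ (fun i => ?_) i
  · show (1 : K) ≠ 0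
    exact one_ne_zero
  · show (x i : K) ≠ 0
    exact (x i).ne_zero

theorem ep_laur {n : ℕ} {K : Type} [Field K] [Algebra ℂ K] (x : Fin n → Kˣ)
    (f : MvPolynomial (Fin (n + 1)) ℂ) : ep x (laur f) = aeval (yy x) f := by
  have h : (ep x).comp (aeval (Fin.cons (α := fun _ => Lau n) 1
      (fun i => AddMonoidAlgebra.single (Pi.single i 1) (1 : ℂ)))) = aeval (yy x) := by
    apply MvPolynomial.algHom_ext
    intro i
    rw [AlgHom.comp_apply, aeval_X, aeval_X]
    refine Fin.cases ?_ (fun i => ?_) i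
    · rw [Fin.cons_zero, map_one]
      rfl
    · rw [Fin.cons_succ, ep_single, xm_single, one_smul]
      rfl
  have h2 := DFunLike.congr_fun h f
  rw [AlgHom.comp_apply] at h2
  exact h2

/-- Laurent polynomials are forms up to units -/
theorem exists_form {n : ℕ} (g : Lau n) : ∃ (u : Lau n) (D : ℕ)
    (U : MvPolynomial (Fin (n + 1)) ℂ), IsUnit u ∧ U.IsHomogeneous D ∧ g * u = laur U := by
  obtain ⟨mm, D, U, hU, e⟩ := Pool.Agent.Y768.KC.exists_hom g
  exact ⟨_, D, U, Pool.Agent.Y768.KC.isUnit_laurL_monomial mm, hU, e⟩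

theorem ep_unit {n : ℕ} {K : Type} [Field K] [Algebra ℂ K] (x : Fin n → Kˣ) {u : Lau n}
    (hu : IsUnit u) : ep x u ≠ 0 := (hu.map (ep x)).ne_zero

/-! ### The embedding of the function field of `Z` -/

section emb

variable {n : ℕ} {K L : Type} [Field K] [Algebra ℂ K] [Field L] [Algebra ℂ L]

/-- units with the same relations -/
theorem exists_emb (x : Fin n → Kˣ) (z : Fin n → Lˣ)
    (hgen : IntermediateField.adjoin ℂ (Set.range fun i => (x i : K)) = ⊤)
    (h : ∀ g : Lau n, ep x g = 0 ↔ ep z g = 0) :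
    ∃ σ : K →ₐ[ℂ] L, ∀ g, σ (ep x g) = ep z g := by
  let A : Subalgebra ℂ K := (ep x).range
  let f : Lau n →ₐ[ℂ] A := (ep x).rangeRestrict
  have hf : Function.Surjective f := (ep x).rangeRestrict_surjective
  have hf0 : ∀ g, f g = 0 ↔ ep x g = 0 := by
    intro g
    rw [← Subtype.coe_inj]
    exact Iff.rfl
  let φ : A →ₐ[ℂ] L := AlgHom.liftOfSurjective f hf (ep z) (by
    intro g hg
    have h1 : f g = 0 := hg
    exact (h g).1 ((hf0 g).1 h1))
  have hφ : ∀ g, φ (f g) = ep z g := fun g => AlgHom.liftOfSurjective_apply f hf (ep z) _ g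
  have hinj : Function.Injective φ := by
    rw [injective_iff_map_eq_zero]
    intro a ha
    obtain ⟨g, rfl⟩ := hf a
    rw [hφ] at ha
    exact (hf0 g).2 ((h g).2 ha)
  have hxA : ∀ i, (x i : K) ∈ A := by
    intro i
    refine ⟨AddMonoidAlgebra.single (Pi.single i 1) (1 : ℂ), ?_⟩
    show ep x _ = _
    rw [ep_single, xm_single, one_smul]
  have hle : Algebra.adjoin ℂ (Set.range fun i => (x i : K)) ≤ A := by
    rw [Algebra.adjoin_le_iff]
    rintro _ ⟨i, rfl⟩
    exact hxA i
  have hfr : IsFractionRing A K := by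
    apply IsFractionRing.of_field
    intro y
    have hy : y ∈ IntermediateField.adjoin ℂ (Set.range fun i => (x i : K)) := by
      rw [hgen]
      exact IntermediateField.mem_top
    rw [IntermediateField.mem_adjoin_iff_div] at hy
    obtain ⟨r, hr, s, hs, e⟩ := hy
    exact ⟨⟨r, hle hr⟩, ⟨s, hle hs⟩, e⟩
  refine ⟨IsFractionRing.liftAlgHom hinj, fun g => ?_⟩
  rw [IsFractionRing.liftAlgHom_apply]
  have h2 : ep x g = algebraMap A K (f g) := rfl
  rw [h2, IsFractionRing.lift_algebraMap]
  exact hφ g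

end emb

/-- KZ12 -/
theorem t_zup : St_lgtG → St_zup := by
  intro hlgt n r X K _ _ x d hd hI hgen hLG
  have hEK : Algebra.EssFiniteType ℂ K := by
    have h1 : (⊤ : IntermediateField ℂ K).FG := by
      rw [← hgen]
      exact IntermediateField.fg_adjoin_of_finite (Set.finite_range _)
    exact IntermediateField.fg_top_iff.mp h1
  have hy0 : yy x 0 = 1 := rfl
  have hys : ∀ i : Fin n, yy x i.succ = (x i : K) := fun i => rfl
  have hgy : IntermediateField.adjoin ℂ (Set.range fun i => yy x i / yy x 0) = ⊤ := by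
    rw [eq_top_iff, ← hgen, IntermediateField.adjoin_le_iff]
    rintro _ ⟨i, rfl⟩
    apply IntermediateField.subset_adjoin
    refine ⟨i.succ, ?_⟩
    show yy x i.succ / yy x 0 = _
    rw [hy0, div_one, hys]
  obtain ⟨μ, hμ⟩ := hlgt K n d (yy x)
    (fun P => ∃ j, ¬ ((X.eL j : ℤ) ∣ P.ord (ep x (X.FL j)))) hd (yy_ne x)
    (by
      intro z
      have hz : z ∈ IntermediateField.adjoin ℂ (Set.range fun i => yy x i / yy x 0) := by
        rw [hgy]
        exact IntermediateField.mem_top
      exact isAlgebraic_algebraMap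
        (⟨z, hz⟩ : IntermediateField.adjoin ℂ (Set.range fun i => yy x i / yy x 0)))
    (by
      have e : (fun P : Place ℂ K => (∃ i, P.ord (yy x i) ≠ P.ord (yy x 0)) ∨
          ∃ j, ¬ ((X.eL j : ℤ) ∣ P.ord (ep x (X.FL j)))) =
          (fun P => (∃ i, P.ord (x i : K) ≠ 0) ∨
            ∃ j, ¬ ((X.eL j : ℤ) ∣ P.ord (ep x (X.FL j)))) := by
        funext P
        apply propext
        apply or_congr_left
        rw [hy0, P.ord_one]
        constructor
        · rintro ⟨i, hi⟩
          revert hi
          refine Fin.cases ?_ (fun i => ?_) i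
          · intro hi
            rw [hy0, P.ord_one] at hi
            exact absurd rfl hi
          · intro hi
            exact ⟨i, hi⟩
        · rintro ⟨i, hi⟩
          exact ⟨i.succ, hi⟩
      rw [e]
      exact hLG)
  refine ⟨μ, fun m hm hm0 hem L _ _ t w hZ => ?_⟩
  -- the coordinates do not vanish
  have ht : ∀ i, t i ≠ 0 := by
    intro i h0
    have h1 := (hZ.van (MvPolynomial.X i) 1 (isHomogeneous_X ℂ i)).1 (by
      rw [aeval_X, h0, zero_pow hm0.ne'])
    exact X.hX i h1
  have ht0 := ht 0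
  let z : Fin n → Lˣ := fun i => Units.mk0 ((t i.succ / t 0) ^ m)
    (pow_ne_zero _ (div_ne_zero (ht _) ht0))
  have hz : yy z = fun i => (t i / t 0) ^ m := by
    funext i
    refine Fin.cases ?_ (fun i => ?_) i
    · show (1 : L) = _
      rw [div_self ht0, one_pow]
    · rfl
  -- values of forms
  have hval : ∀ (f : MvPolynomial (Fin (n + 1)) ℂ) (k : ℕ), f.IsHomogeneous k →
      aeval (fun i => t i ^ m) f = (t 0 ^ m) ^ k * ep z (laur f) := by
    intro f k hf
    rw [ep_laur, hz, ← aeval_scale hf]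
    congr 2
    funext i
    rw [div_pow, mul_div_cancel₀ _ (pow_ne_zero m ht0)]
  have hker : ∀ g : Lau n, ep x g = 0 ↔ ep z g = 0 := by
    intro g
    obtain ⟨u, D, U, hu, hU, e⟩ := exists_form g
    have h1 : ep x g = 0 ↔ ep x (laur U) = 0 := by
      rw [← e, map_mul, mul_eq_zero]
      exact ⟨Or.inl, fun h => h.resolve_right (ep_unit x hu)⟩
    have h2 : ep z g = 0 ↔ ep z (laur U) = 0 := by
      rw [← e, map_mul, mul_eq_zero]
      exact ⟨Or.inl, fun h => h.resolve_right (ep_unit z hu)⟩
    rw [h1, h2, hI U D hU, ← hZ.van U D hU, hval U D hU, mul_eq_zero]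
    exact ⟨fun h => h.resolve_left (pow_ne_zero _ (pow_ne_zero _ ht0)), Or.inr⟩
  obtain ⟨σ, hσ⟩ := exists_emb x z hgen hker
  have hσy : ∀ i, σ (yy x i) = (t i / t 0) ^ m := by
    intro i
    have h1 : yy x i = ep x (laur (MvPolynomial.X i)) := by rw [ep_laur, aeval_X]
    rw [h1, hσ, ep_laur, aeval_X, hz]
  have hwt : ∀ j, X.wt m j * X.e j = m * X.d j := fun j =>
    Nat.div_mul_cancel ((hem j).mul_right _)
  have hσF : ∀ j, (w j / t 0 ^ X.wt m j) ^ X.e j = σ (ep x (laur (X.F j))) := by
    intro j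
    rw [hσ, div_pow, hZ.eqn j, hval _ _ (X.hF j), ← pow_mul, ← pow_mul, hwt, mul_comm,
      mul_div_assoc, div_self (pow_ne_zero _ ht0), mul_one]
  let _ : Algebra K L := σ.toRingHom.toAlgebra
  have hST : IsScalarTower ℂ K L := IsScalarTower.of_algebraMap_eq' (σ.comp_algebraMap).symm
  have hmap : ∀ y : K, algebraMap K L y = σ y := fun y => rfl
  have hEL : Algebra.EssFiniteType ℂ L := by
    have h1 : (⊤ : IntermediateField ℂ L).FG := by
      rw [← hZ.gen]
      exact IntermediateField.fg_adjoin_of_finite ((Set.finite_range _).union (Set.finite_range _))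
    exact IntermediateField.fg_top_iff.mp h1
  have halg : Algebra.IsAlgebraic K L := by
    have hle : IntermediateField.adjoin ℂ (Set.range (fun i => t i / t 0) ∪
        Set.range (fun j => w j / t 0 ^ X.wt m j)) ≤
        (algebraicClosure K L).restrictScalars ℂ := by
      rw [IntermediateField.adjoin_le_iff]
      rintro _ (⟨i, rfl⟩ | ⟨j, rfl⟩)
      · show t i / t 0 ∈ algebraicClosure K L
        rw [mem_algebraicClosure_iff]
        refine IsAlgebraic.of_pow hm0 ?_
        rw [← hσy i, ← hmap]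
        exact isAlgebraic_algebraMap _
      · show w j / t 0 ^ X.wt m j ∈ algebraicClosure K L
        rw [mem_algebraicClosure_iff]
        refine IsAlgebraic.of_pow (X.he j) ?_
        rw [hσF j, ← hmap]
        exact isAlgebraic_algebraMap _
    refine ⟨fun y => ?_⟩
    have hy : y ∈ IntermediateField.adjoin ℂ (Set.range (fun i => t i / t 0) ∪
        Set.range (fun j => w j / t 0 ^ X.wt m j)) := by
      rw [hZ.gen]
      exact IntermediateField.mem_top
    exact mem_algebraicClosure_iff.1 (hle hy)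
  refine hμ L (OffG X.toCov m t) fun P hP => ?_
  unfold OffG at hP
  push Not at hP
  obtain ⟨c, hc1, ⟨i0, hc2⟩, hc3⟩ := hP
  have hordy : ∀ i, P.ord (algebraMap K L (yy x i)) = m * (P.ord (t i) - P.ord (t 0)) := by
    intro i
    rw [hmap, hσy, P.ord_pow, P.ord_div (ht i) ht0]
  by_cases hall : ∀ i, P.ord (t i) = c
  · left
    refine ⟨fun i => ?_, ?_⟩
    · rw [hordy, hordy, hall i, hall 0, sub_self]
    · intro P0 s hs hB
      obtain ⟨j, hj⟩ := hB
      have hs0 : s ≠ 0 := by
        rintro rfl
        refine not_trivial_of_alg (K := K) P fun y => ?_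
        rw [hs y, Nat.cast_zero, zero_mul]
      by_contra hs2
      have hs1 : s = 1 := by omega
      apply hj
      have hPj : P0.ord (ep x (X.FL j)) = P.ord (ep z (X.FL j)) := by
        have h1 := hs (ep x (X.FL j))
        rw [hs1, Nat.cast_one, one_mul, hmap, hσ] at h1
        exact h1.symm
      rw [hPj]
      revert hj
      refine Fin.cases ?_ (fun j => ?_) j
      · intro _
        show ((0 : ℕ) : ℤ) ∣ P.ord (ep z (laur X.G))
        have hG0 : aeval (fun i => t i ^ m) X.G ≠ 0 := fun h0 =>
          X.hGI ((hZ.van _ _ X.hG).1 h0)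
        have hv := hval _ _ X.hG
        have hz0 : ep z (laur X.G) ≠ 0 := by
          intro h0
          rw [h0, mul_zero] at hv
          exact hG0 hv
        have h1 : P.ord (aeval (fun i => t i ^ m) X.G) =
            m * X.q * c + P.ord (ep z (laur X.G)) := by
          rw [hv, P.ord_mul (pow_ne_zero _ (pow_ne_zero _ ht0)) hz0, P.ord_pow, P.ord_pow, hall 0]
          ring
        have h2 : 0 ≤ P.ord (ep z (laur X.G)) := by
          rw [← P.reg_iff hz0, ep_laur]
          apply reg_mvaeval
          intro i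
          rw [hz]
          right
          show 0 ≤ P.ord ((t i / t 0) ^ m)
          rw [P.ord_pow, P.ord_div (ht i) ht0, hall i, hall 0, sub_self, mul_zero]
        have h3 : P.ord (ep z (laur X.G)) = 0 := by
          rw [h1] at hc3
          linarith
        rw [h3]
        exact dvd_zero _
      · intro _
        show ((X.e j : ℕ) : ℤ) ∣ P.ord (ep z (laur (X.F j)))
        have h1 := hσF j
        rw [hσ] at h1
        rw [← h1, P.ord_pow]
        exact dvd_mul_right _ _
  · right
    push Not at hall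
    obtain ⟨i, hi⟩ := hall
    refine ⟨i0, i, ?_⟩
    rw [hordy, hordy, hc2]
    have h1 := hc1 i
    have h2 : c + 1 ≤ P.ord (t i) := by omega
    have h3 : (μ : ℤ) ≤ m := by exact_mod_cast hm
    have h4 : (m : ℤ) * 1 ≤ m * (P.ord (t i) - c) :=
      mul_le_mul_of_nonneg_left (by omega) (by omega)
    have e1 : (m : ℤ) * (P.ord (t i) - P.ord (t 0)) =
      m * (c - P.ord (t 0)) + m * (P.ord (t i) - c) := by ring
    rw [e1]
    omega

end Pool.Agent.Y153.KZ
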